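import Pool.Agent.Run7.h968.TN.Main3

set_option autoImplicit false

/-!
# Tarski numbers of groups of cost larger than one with a locally residually finite subgroup

Let `G` be a countable group (finitely generated or not) of cost `> 1`, and let `M` be an infinite
subgroup each of whose finitely generated subgroups is residually finite or has rank gradient zero,
such that `M` is normal, or more generally `G` is the only subgroup `K ⊇ M` which contains all
elements tied to `K`. Then the Tarski number of `G` is at most `6`; it is at most `5` if `M` has an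
element of infinite order. For `M = G` this bounds the Tarski numbers of all locally residually
finite groups of cost `> 1`.
-/

namespace Pool.Agent.Results.MP_90732c_al.LocallyResiduallyFinite

open MeasureTheory

/-- `G` has cost larger than one (verbatim the hypothesis of the frozen statement `S02269`): there is
`ε > 0` such that for every essentially free measure-preserving action of `G` on a standard Borel
probability space, every countable family of partial isomorphisms `A i ∋ x ↦ s i • x` which
generates the orbit relation has cost `∑ μ (A i) ≥ 1 + ε`. -/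
def CostGtOne (G : Type) [Group G] : Prop :=
  ∃ ε : ENNReal, 0 < ε ∧
      ∀ (X : Type) [MeasurableSpace X] [StandardBorelSpace X] [MulAction G X]
        (μ : Measure X) [IsProbabilityMeasure μ],
        (∀ g : G, MeasurePreserving (fun x : X => g • x) μ μ) →
        (∀ g : G, g ≠ 1 → μ {x : X | g • x = x} = 0) →
        ∀ (s : ℕ → G) (A : ℕ → Set X), (∀ i, MeasurableSet (A i)) →
          (∀ᵐ x ∂μ, ∀ h : G, Relation.ReflTransGen
              (fun y z : X => ∃ i, (y ∈ A i ∧ z = s i • y) ∨ (z ∈ A i ∧ y = s i • z))
              x (h • x)) →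
          1 + ε ≤ ∑' i, μ (A i)

/-- `G` has a paradoxical decomposition with at most `N` pieces (its Tarski number is at most `N`):
`G` is the disjoint union of the pieces `A i`, `B j`, of the translates `g i A i`, and of the
translates `h j B j`. -/
def Paradoxical (G : Type) [Group G] (N : ℕ) : Prop :=
  ∃ m n : ℕ, m + n ≤ N ∧
    ∃ (A : Fin m → Set G) (B : Fin n → Set G) (g : Fin m → G) (h : Fin n → G),
      (∀ x : G, ∃! p : Fin m ⊕ Fin n, x ∈ Sum.elim A B p) ∧
      (∀ x : G, ∃! i : Fin m, (g i)⁻¹ * x ∈ A i) ∧
      (∀ x : G, ∃! j : Fin n, (h j)⁻¹ * x ∈ B j)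

/-- `g` is tied to the subgroup `K`: for some `n ≥ 2`, one coset `K d` contains `(u g) ^ n` for
infinitely many `u ∈ K`. (If `g u g⁻¹ ∈ K` for infinitely many `u ∈ K` then `g` is tied to `K`, with
`n = 2`, `d = g ^ 2`.) -/
def Tied {G : Type} [Group G] (K : Subgroup G) (g : G) : Prop :=
  ∃ n : ℕ, 2 ≤ n ∧ ∃ d : G, {u : G | u ∈ K ∧ (u * g) ^ n * d⁻¹ ∈ K}.Infinite

/-- `K` has rank gradient zero: for every `δ > 0` some subgroup `N` of finite index of `K` is
generated by a finite set `T` with fewer than `1 + δ [K : N]` elements. -/
def ZeroRankGradient (K : Type) [Group K] : Prop :=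
  ∀ δ : ℝ, 0 < δ → ∃ (N : Subgroup K) (T : Finset K), N.FiniteIndex ∧
    Subgroup.closure (T : Set K) = N ∧ (T.card : ℝ) < 1 + δ * N.index

/-- `G` is reached from `M` by ties: `G` is the only subgroup `K ⊇ M` which contains every element
tied to `K`. -/
def Reached {G : Type} [Group G] (M : Subgroup G) : Prop :=
  ∀ K : Subgroup G, M ≤ K → (∀ g, Tied K g → g ∈ K) → K = ⊤

theorem result (G : Type) [Group G] [Countable G] (hc : CostGtOne G) (M : Subgroup G)
    (hM : (M : Set G).Infinite)
    (hloc : ∀ K : Subgroup G, K ≤ M → K.FG → Group.ResiduallyFinite K ∨ ZeroRankGradient K)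
    (h : M.Normal ∨ Reached M) :
    Paradoxical G 6 ∧
    ((∃ u ∈ M, ¬ IsOfFinOrder u) → Paradoxical G 5) ∧
    ((∀ g : G, IsOfFinOrder g) → ¬ Paradoxical G 5) :=
  Pool.Agent.Run7.h968.TN.main3 G hc M hM hloc h

end Pool.Agent.Results.MP_90732c_al.LocallyResiduallyFinite
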